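import Pool.Agent.H25.VT.Spec

/-!
# Swarm VT, part EXC: exchanging a tempered distribution with an integral of characters
-/

set_option autoImplicit false
set_option linter.unusedSectionVars false

open MeasureTheory
open scoped ENNReal NNReal SchwartzMap FourierTransform BoundedContinuousFunction LineDeriv

namespace Pool.Agent.Helper76.VT.EXC
open Pool.Agent.H25.VT

/-- Factoring a dominated functional through a linear map (Hahn-Banach). -/
theorem factor {X Y : Type*} [AddCommGroup X] [Module ℂ X] [AddCommGroup Y] [Module ℂ Y]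
    (J : X →ₗ[ℂ] Y) (p : Seminorm ℂ Y) (F : X →ₗ[ℂ] ℂ) (h : ∀ x, ‖F x‖ ≤ p (J x)) :
    ∃ G : Y →ₗ[ℂ] ℂ, (∀ x, G (J x) = F x) ∧ ∀ y, ‖G y‖ ≤ p y := by
  have hker : LinearMap.ker J ≤ LinearMap.ker F := by
    intro x hx
    have := h x
    rw [LinearMap.mem_ker] at hx ⊢
    rw [hx, map_zero] at this
    exact norm_le_zero_iff.mp this
  obtain ⟨f, hf⟩ : ∃ f : LinearMap.range J →ₗ[ℂ] ℂ,
      ∀ x, f ⟨J x, LinearMap.mem_range_self J x⟩ = F x := by
    refine ⟨(Submodule.liftQ _ F hker).comp (LinearMap.quotKerEquivRange J).symm.toLinearMap,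
      fun x => ?_⟩
    have h1 : (LinearMap.quotKerEquivRange J).symm ⟨J x, LinearMap.mem_range_self J x⟩
        = Submodule.Quotient.mk x := by
      rw [LinearEquiv.symm_apply_eq]
      apply Subtype.ext
      exact (LinearMap.quotKerEquivRange_apply_mk J x).symm
    simp only [LinearMap.comp_apply, LinearEquiv.coe_coe]
    rw [h1]
    exact Submodule.liftQ_apply _ _ _
  obtain ⟨G, hG, hb⟩ := Module.Dual.exists_extension_of_le_seminorm (LinearMap.range J) f (p := p)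
    (by
      rintro ⟨y, x, rfl⟩
      rw [hf]
      exact h x)
  exact ⟨G, fun x => by rw [← hf x, ← hG], hb⟩

variable {n : ℕ}

theorem iter_exp (c : ℂ) (k : ℕ) :
    iteratedDeriv k (fun t : ℝ => Complex.exp (c * t)) = fun t : ℝ => c ^ k * Complex.exp (c * t) := by
  induction k with
  | zero => simp
  | succ k ih =>
    rw [iteratedDeriv_succ, ih]
    funext t
    have h1 : HasDerivAt (fun t : ℝ => Complex.exp (c * t)) (Complex.exp (c * t) * c) t := by
      have h2 : HasDerivAt (fun t : ℝ => c * (t : ℂ)) c t := by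
        simpa using (Complex.ofRealCLM.hasDerivAt (x := t)).const_mul c
      exact h2.cexp
    rw [(h1.const_mul (c ^ k)).deriv]
    ring

theorem ch_tg (x : E n) : (ch x).HasTemperateGrowth := by
  have hexp : (fun t : ℝ => Complex.exp (2 * Real.pi * Complex.I * t)).HasTemperateGrowth := by
    refine ⟨(contDiff_const.mul Complex.ofRealCLM.contDiff).cexp, fun k => ⟨0, (2 * Real.pi) ^ k, fun t => ?_⟩⟩
    rw [norm_iteratedFDeriv_eq_norm_iteratedDeriv, iter_exp]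
    simp only [norm_mul, norm_pow, pow_zero, mul_one]
    have : ‖Complex.exp (2 * Real.pi * Complex.I * t)‖ = 1 := by
      rw [Complex.norm_exp]
      simp
    rw [this]
    simp [abs_of_pos Real.pi_pos]
  exact hexp.comp (f := fun ξ : E n => inner ℝ ξ x) (by fun_prop)


theorem norm_ch (x ξ : E n) : ‖ch x ξ‖ = 1 := by
  rw [ch, Complex.norm_exp]
  simp

theorem norm_ch_sub (x y ξ : E n) : ‖ch x ξ - ch y ξ‖ ≤ 2 * Real.pi * (‖ξ‖ * ‖x - y‖) := by
  have h1 : ch x ξ - ch y ξ = ch y ξ * (Complex.exp (Complex.I * ((2 * Real.pi * inner ℝ ξ (x - y) : ℝ) : ℂ)) - 1) := by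
    rw [ch, ch, mul_sub, mul_one, ← Complex.exp_add, inner_sub_right]
    congr 2
    push_cast
    ring
  rw [h1, norm_mul, norm_ch, one_mul]
  refine (Real.norm_exp_I_mul_ofReal_sub_one_le).trans ?_
  rw [Real.norm_eq_abs, abs_mul, abs_of_pos (by positivity : (0 : ℝ) < 2 * Real.pi)]
  exact mul_le_mul_of_nonneg_left (abs_real_inner_le_norm _ _) (by positivity)

theorem integrable_mul {g : E n → ℂ} (hg : Continuous g)
    (hb : ∃ (C : ℝ) (N : ℕ), ∀ x, ‖g x‖ ≤ C * (1 + ‖x‖) ^ N) (u : 𝓢(E n, ℂ)) :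
    Integrable (fun x => g x * u x) := by
  obtain ⟨C, N, h⟩ := hb
  have h1 : Integrable (fun x : E n => |C| * (2 ^ N * (‖u x‖ + ‖x‖ ^ N * ‖u x‖))) := by
    refine ((Integrable.add ?_ (u.integrable_pow_mul volume N)).const_mul _).const_mul _
    exact u.integrable.norm
  refine h1.mono' (hg.mul u.continuous).aestronglyMeasurable (Filter.Eventually.of_forall fun x => ?_)
  rw [norm_mul]
  have h2 : (1 + ‖x‖) ^ N ≤ 2 ^ N * (1 + ‖x‖ ^ N) := by
    have h3 := add_pow_le (zero_le_one' ℝ) (norm_nonneg x) N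
    rw [one_pow] at h3
    refine h3.trans (mul_le_mul_of_nonneg_right ?_ (by positivity))
    exact pow_le_pow_right₀ (by norm_num) (Nat.sub_le _ _)
  calc ‖g x‖ * ‖u x‖ ≤ (|C| * (2 ^ N * (1 + ‖x‖ ^ N))) * ‖u x‖ := by
        refine mul_le_mul_of_nonneg_right ((h x).trans ?_) (norm_nonneg _)
        calc C * (1 + ‖x‖) ^ N ≤ |C| * (1 + ‖x‖) ^ N :=
              mul_le_mul_of_nonneg_right (le_abs_self C) (by positivity)
          _ ≤ _ := mul_le_mul_of_nonneg_left h2 (abs_nonneg C)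
    _ = _ := by ring

variable {V : Type} [NormedAddCommGroup V] [NormedSpace ℝ V] [NormedSpace ℂ V]

/-- The exchange property of a functional on `V`-valued Schwartz functions. -/
def P (F : 𝓢(E n, V) →ₗ[ℂ] ℂ) : Prop :=
  ∀ b : 𝓢(E n, V), Continuous (fun x : E n => F (SchwartzMap.smulLeftCLM V (ch x) b)) ∧
  (∃ (C : ℝ) (N : ℕ), ∀ x : E n, ‖F (SchwartzMap.smulLeftCLM V (ch x) b)‖ ≤ C * (1 + ‖x‖) ^ N) ∧
  ∀ u : 𝓢(E n, ℂ), ∫ x, F (SchwartzMap.smulLeftCLM V (ch x) b) * u x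
    = F (SchwartzMap.smulLeftCLM V ((𝓕⁻ u : 𝓢(E n, ℂ)) : E n → ℂ) b)

section base

variable [SMulCommClass ℝ ℂ V]

theorem bcf_bound (K : ℕ) (φ : 𝓢(E n, V)) (ξ : E n) :
    ‖((1 + ‖ξ‖) ^ K : ℝ) • φ ξ‖
      ≤ 2 ^ K * (Finset.Iic (K, 0)).sup (schwartzSeminormFamily ℂ (E n) V) φ := by
  rw [norm_smul, Real.norm_of_nonneg (by positivity)]
  have h := SchwartzMap.one_add_le_sup_seminorm_apply (𝕜 := ℂ) (m := (K, 0)) (k := K) (n := 0)
    le_rfl le_rfl φ ξ
  rwa [norm_iteratedFDeriv_zero] at h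

/-- The weighted embedding into bounded continuous functions. -/
noncomputable def J (K : ℕ) : 𝓢(E n, V) →ₗ[ℂ] (E n →ᵇ V) where
  toFun φ := BoundedContinuousFunction.ofNormedAddCommGroup
    (fun ξ => ((1 + ‖ξ‖) ^ K : ℝ) • φ ξ)
    (((continuous_const.add continuous_norm).pow K).smul φ.continuous) _ (bcf_bound K φ)
  map_add' φ ψ := by
    ext ξ
    simp
  map_smul' c φ := by
    ext ξ
    exact smul_comm ((1 + ‖ξ‖) ^ K : ℝ) c (φ ξ)

theorem J_apply (K : ℕ) (φ : 𝓢(E n, V)) (ξ : E n) : J K φ ξ = ((1 + ‖ξ‖) ^ K : ℝ) • φ ξ := rfl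

theorem base [CompleteSpace V] (K : ℕ) (C : ℝ≥0) (F : 𝓢(E n, V) →ₗ[ℂ] ℂ)
    (hF : ∀ φ, ‖F φ‖ ≤ C * (Finset.Iic (K, 0)).sup (schwartzSeminormFamily ℂ (E n) V) φ) :
    P F := by
  obtain ⟨G, hG, hGb⟩ := factor (J (n := n) (V := V) K) (C • normSeminorm ℂ (E n →ᵇ V)) F (by
    intro φ
    refine (hF φ).trans ?_
    change _ ≤ (C : ℝ) * ‖J K φ‖
    refine mul_le_mul_of_nonneg_left ?_ C.2
    refine Seminorm.finset_sup_apply_le (norm_nonneg _) ?_
    rintro ⟨k, l⟩ hkl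
    rw [Finset.mem_Iic, Prod.mk_le_mk] at hkl
    obtain ⟨hk, hl⟩ := hkl
    obtain rfl : l = 0 := by simpa using hl
    refine SchwartzMap.seminorm_le_bound ℂ k 0 φ (norm_nonneg _) fun ξ => ?_
    rw [norm_iteratedFDeriv_zero]
    refine le_trans ?_ ((J K φ).norm_coe_le_norm ξ)
    rw [J_apply, norm_smul, Real.norm_of_nonneg (by positivity)]
    refine mul_le_mul_of_nonneg_right ?_ (norm_nonneg _)
    calc ‖ξ‖ ^ k ≤ (1 + ‖ξ‖) ^ k := pow_le_pow_left₀ (norm_nonneg _) (by linarith) _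
      _ ≤ (1 + ‖ξ‖) ^ K := pow_le_pow_right₀ (by linarith [norm_nonneg ξ]) hk)
  have hGb' : ∀ y, ‖G y‖ ≤ C * ‖y‖ := fun y => hGb y
  obtain ⟨Gc, hGc⟩ : ∃ Gc : (E n →ᵇ V) →L[ℂ] ℂ, ∀ y, Gc y = G y :=
    ⟨G.mkContinuous C hGb', fun y => rfl⟩
  intro b
  have hΦ : ∀ x, F (SchwartzMap.smulLeftCLM V (ch x) b)
      = Gc (J K (SchwartzMap.smulLeftCLM V (ch x) b)) := fun x => by rw [hGc, hG]
  have hnorm : ∀ x, ‖J K (SchwartzMap.smulLeftCLM V (ch x) b)‖ ≤ ‖J K b‖ := by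
    intro x
    refine (BoundedContinuousFunction.norm_le (norm_nonneg _)).2 fun ξ => ?_
    refine le_trans (le_of_eq ?_) ((J K b).norm_coe_le_norm ξ)
    rw [J_apply, J_apply, SchwartzMap.smulLeftCLM_apply_apply (ch_tg x), norm_smul, norm_smul,
      norm_smul, norm_ch, one_mul]
  have hcont : Continuous (fun x : E n => J K (SchwartzMap.smulLeftCLM V (ch x) b)) := by
    refine (LipschitzWith.of_dist_le_mul (K := ⟨2 * Real.pi * (2 ^ (K + 1) *
      (Finset.Iic (K + 1, 0)).sup (schwartzSeminormFamily ℂ (E n) V) b),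
        mul_nonneg (by positivity) (mul_nonneg (by positivity) (apply_nonneg _ _))⟩)
      fun x y => ?_).continuous
    rw [dist_eq_norm, dist_eq_norm]
    refine (BoundedContinuousFunction.norm_le
      (mul_nonneg (NNReal.coe_nonneg _) (norm_nonneg _))).2 fun ξ => ?_
    have h1 : (J K (SchwartzMap.smulLeftCLM V (ch x) b) - J K (SchwartzMap.smulLeftCLM V (ch y) b)) ξ
        = (ch x ξ - ch y ξ) • (((1 + ‖ξ‖) ^ K : ℝ) • b ξ) := by
      rw [BoundedContinuousFunction.coe_sub, Pi.sub_apply, J_apply, J_apply,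
        SchwartzMap.smulLeftCLM_apply_apply (ch_tg x), SchwartzMap.smulLeftCLM_apply_apply (ch_tg y),
        ← smul_sub, ← sub_smul]
      exact smul_comm _ _ _
    rw [h1, norm_smul]
    have h2 := bcf_bound (K + 1) b ξ
    rw [norm_smul, Real.norm_of_nonneg (by positivity), pow_succ] at h2
    rw [norm_smul, Real.norm_of_nonneg (by positivity)]
    calc ‖ch x ξ - ch y ξ‖ * ((1 + ‖ξ‖) ^ K * ‖b ξ‖)
        ≤ (2 * Real.pi * (‖ξ‖ * ‖x - y‖)) * ((1 + ‖ξ‖) ^ K * ‖b ξ‖) :=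
          mul_le_mul_of_nonneg_right (norm_ch_sub x y ξ) (by positivity)
      _ ≤ (2 * Real.pi * ((1 + ‖ξ‖) * ‖x - y‖)) * ((1 + ‖ξ‖) ^ K * ‖b ξ‖) := by
          gcongr
          linarith
      _ = 2 * Real.pi * ((1 + ‖ξ‖) ^ K * (1 + ‖ξ‖) * ‖b ξ‖) * ‖x - y‖ := by ring
      _ ≤ 2 * Real.pi * (2 ^ (K + 1) *
            (Finset.Iic (K + 1, 0)).sup (schwartzSeminormFamily ℂ (E n) V) b) * ‖x - y‖ := by
          gcongr
  refine ⟨?_, ?_, ?_⟩
  · simp only [hΦ]
    exact Gc.continuous.comp hcont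
  · refine ⟨C * ‖J K b‖, 0, fun x => ?_⟩
    rw [pow_zero, mul_one, hΦ, hGc]
    exact (hGb' _).trans (mul_le_mul_of_nonneg_left (hnorm x) C.2)
  · intro u
    have hint : Integrable (fun x => u x • J K (SchwartzMap.smulLeftCLM V (ch x) b)) := by
      refine (u.integrable.norm.mul_const ‖J K b‖).mono'
        (u.continuous.smul hcont).aestronglyMeasurable (Filter.Eventually.of_forall fun x => ?_)
      rw [norm_smul]
      exact mul_le_mul_of_nonneg_left (hnorm x) (norm_nonneg _)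
    have h1 : ∫ x, F (SchwartzMap.smulLeftCLM V (ch x) b) * u x
        = Gc (∫ x, u x • J K (SchwartzMap.smulLeftCLM V (ch x) b)) := by
      rw [← ContinuousLinearMap.integral_comp_comm Gc hint]
      refine integral_congr_ae (Filter.Eventually.of_forall fun x => ?_)
      simp only [hΦ, map_smul, smul_eq_mul]
      ring
    have h2 : ∫ x, u x • J K (SchwartzMap.smulLeftCLM V (ch x) b)
        = J K (SchwartzMap.smulLeftCLM V ((𝓕⁻ u : 𝓢(E n, ℂ)) : E n → ℂ) b) := by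
      ext ξ
      have h3 : (∫ x, u x • J K (SchwartzMap.smulLeftCLM V (ch x) b)) ξ
          = ∫ x, (u x • J K (SchwartzMap.smulLeftCLM V (ch x) b)) ξ :=
        (ContinuousLinearMap.integral_comp_comm
          (BoundedContinuousFunction.evalCLM ℂ ξ : (E n →ᵇ V) →L[ℂ] V) hint).symm
      rw [h3, J_apply, SchwartzMap.smulLeftCLM_apply_apply (SchwartzMap.hasTemperateGrowth _)]
      have h4 : ∀ x, (u x • J K (SchwartzMap.smulLeftCLM V (ch x) b)) ξ
          = (Complex.exp (↑(2 * Real.pi * inner ℝ x ξ) * Complex.I) • u x)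
            • (((1 + ‖ξ‖) ^ K : ℝ) • b ξ) := by
        intro x
        change u x • (((1 + ‖ξ‖) ^ K : ℝ) • (SchwartzMap.smulLeftCLM V (ch x) b) ξ) = _
        rw [SchwartzMap.smulLeftCLM_apply_apply (ch_tg x), smul_eq_mul]
        rw [show (((1 + ‖ξ‖) ^ K : ℝ) • ch x ξ • b ξ) = ch x ξ • ((1 + ‖ξ‖) ^ K : ℝ) • b ξ from
          smul_comm _ _ _, smul_smul]
        congr 1
        rw [ch, mul_comm (u x), real_inner_comm]
        congr 2
        push_cast
        ring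
      simp only [h4]
      rw [integral_smul_const, SchwartzMap.fourierInv_coe, Real.fourierInv_eq']
      exact smul_comm _ _ _
    rw [h1, h2, hGc, hG]

end base

section step

variable [SMulCommClass ℝ ℂ V]

/-- `v ↦ v i • w`. -/
noncomputable def Li (i : Fin n) : V →L[ℝ] (E n →L[ℝ] V) :=
  ContinuousLinearMap.smulRightL ℝ (E n) V (EuclideanSpace.proj i : E n →L[ℝ] ℝ)

theorem Li_apply (i : Fin n) (w : V) (v : E n) : Li i w v = v i • w := rfl

/-- The function `v i • b`. -/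
noncomputable def bi (i : Fin n) (b : 𝓢(E n, V)) : 𝓢(E n, E n →L[ℝ] V) :=
  SchwartzMap.postcompCLM (𝕜 := ℝ) (Li i) b

theorem bi_apply (i : Fin n) (b : 𝓢(E n, V)) (ξ v : E n) : bi i b ξ v = v i • b ξ := rfl

/-- `2 π i x_i u(x)`. -/
noncomputable def ui (i : Fin n) (u : 𝓢(E n, ℂ)) : 𝓢(E n, ℂ) :=
  (2 * Real.pi * Complex.I) • SchwartzMap.smulLeftCLM ℂ (fun x : E n => x i) u

theorem ui_apply (i : Fin n) (u : 𝓢(E n, ℂ)) (x : E n) :
    ui i u x = (2 * Real.pi * Complex.I * x i) * u x := by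
  have h : (fun x : E n => x i).HasTemperateGrowth :=
    (EuclideanSpace.proj i : E n →L[ℝ] ℝ).hasTemperateGrowth
  change (2 * Real.pi * Complex.I) • (SchwartzMap.smulLeftCLM ℂ (fun x : E n => x i) u) x = _
  rw [SchwartzMap.smulLeftCLM_apply_apply h, Complex.real_smul, smul_eq_mul]
  ring

theorem fderiv_ch (x ξ v : E n) :
    fderiv ℝ (ch x) ξ v = (2 * Real.pi * Complex.I * (inner ℝ v x : ℝ)) * ch x ξ := by
  have h1 : HasFDerivAt (fun ξ : E n => ((inner ℝ ξ x : ℝ) : ℂ))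
      (Complex.ofRealCLM.comp ((innerSL ℝ).flip x)) ξ :=
    (Complex.ofRealCLM.comp ((innerSL ℝ).flip x)).hasFDerivAt
  have h2 : HasFDerivAt (ch x) (Complex.exp (2 * Real.pi * Complex.I * (inner ℝ ξ x : ℝ)) •
      ((2 * Real.pi * Complex.I) • (Complex.ofRealCLM.comp ((innerSL ℝ).flip x)))) ξ :=
    (h1.const_mul (2 * Real.pi * Complex.I)).cexp
  rw [h2.fderiv]
  change Complex.exp (2 * Real.pi * Complex.I * (inner ℝ ξ x : ℝ)) •
    ((2 * Real.pi * Complex.I) • ((inner ℝ v x : ℝ) : ℂ)) = _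
  rw [smul_eq_mul, smul_eq_mul, ch]
  ring

theorem fderiv_smulLeft (g : E n → ℂ) (hg : g.HasTemperateGrowth) (b : 𝓢(E n, V)) (ξ v : E n) :
    SchwartzMap.fderivCLM ℂ (E n) V (SchwartzMap.smulLeftCLM V g b) ξ v
      = g ξ • fderiv ℝ b ξ v + (fderiv ℝ g ξ v) • b ξ := by
  rw [SchwartzMap.fderivCLM_apply, SchwartzMap.smulLeftCLM_apply hg]
  rw [fderiv_fun_smul ((hg.1.differentiable (by simp)) ξ) b.differentiableAt]
  rfl

theorem inner_eq_sum (v x : E n) : inner ℝ v x = ∑ i, v i * x i := by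
  rw [PiLp.inner_apply]
  refine Finset.sum_congr rfl fun i _ => ?_
  simp [mul_comm]

theorem rs (r : ℝ) (w : V) : r • w = (r : ℂ) • w := by
  rw [← smul_one_smul ℂ r w]
  simp

theorem app_sum (s : Finset (Fin n)) (g : Fin n → 𝓢(E n, ℂ)) (c : Fin n → ℂ) (x : E n) :
    (∑ i ∈ s, c i • g i) x = ∑ i ∈ s, c i * (g i x) := by
  simp

theorem app_add_sum {W : Type} [NormedAddCommGroup W] [NormedSpace ℝ W] [NormedSpace ℂ W]
    [SMulCommClass ℝ ℂ W] (a : 𝓢(E n, E n →L[ℝ] W)) (s : Finset (Fin n))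
    (g : Fin n → 𝓢(E n, E n →L[ℝ] W)) (x v : E n) :
    (a + ∑ i ∈ s, g i) x v = a x v + ∑ i ∈ s, (g i x v) := by
  simp

theorem D_ch (x : E n) (b : 𝓢(E n, V)) :
    SchwartzMap.fderivCLM ℂ (E n) V (SchwartzMap.smulLeftCLM V (ch x) b)
      = SchwartzMap.smulLeftCLM (E n →L[ℝ] V) (ch x) (SchwartzMap.fderivCLM ℂ (E n) V b)
        + ∑ i, (2 * Real.pi * Complex.I * x i) •
            SchwartzMap.smulLeftCLM (E n →L[ℝ] V) (ch x) (bi i b) := by
  ext ξ v
  rw [fderiv_smulLeft _ (ch_tg x), fderiv_ch, app_add_sum]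
  congr 1
  · rw [SchwartzMap.smulLeftCLM_apply_apply (ch_tg x)]
    rfl
  · rw [inner_eq_sum, Complex.ofReal_sum, Finset.mul_sum, Finset.sum_mul, Finset.sum_smul]
    refine Finset.sum_congr rfl fun i _ => ?_
    change _ = (2 * Real.pi * Complex.I * x i) •
      ((SchwartzMap.smulLeftCLM (E n →L[ℝ] V) (ch x) (bi i b)) ξ v)
    rw [SchwartzMap.smulLeftCLM_apply_apply (ch_tg x)]
    change _ = (2 * Real.pi * Complex.I * x i) • (ch x ξ • (v i • b ξ))
    rw [rs, smul_smul, smul_smul]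
    congr 1
    push_cast
    ring

theorem D_u (u : 𝓢(E n, ℂ)) (b : 𝓢(E n, V)) :
    SchwartzMap.fderivCLM ℂ (E n) V
        (SchwartzMap.smulLeftCLM V ((𝓕⁻ u : 𝓢(E n, ℂ)) : E n → ℂ) b)
      = SchwartzMap.smulLeftCLM (E n →L[ℝ] V) ((𝓕⁻ u : 𝓢(E n, ℂ)) : E n → ℂ)
          (SchwartzMap.fderivCLM ℂ (E n) V b)
        + ∑ i, SchwartzMap.smulLeftCLM (E n →L[ℝ] V) ((𝓕⁻ (ui i u) : 𝓢(E n, ℂ)) : E n → ℂ)
            (bi i b) := by
  ext ξ v
  rw [fderiv_smulLeft _ (SchwartzMap.hasTemperateGrowth _), app_add_sum]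
  congr 1
  · rw [SchwartzMap.smulLeftCLM_apply_apply (SchwartzMap.hasTemperateGrowth _)]
    rfl
  · have h1 : fderiv ℝ ((𝓕⁻ u : 𝓢(E n, ℂ)) : E n → ℂ) ξ v
        = ∑ i, (v i : ℂ) * (𝓕⁻ (ui i u) : 𝓢(E n, ℂ)) ξ := by
      rw [← SchwartzMap.lineDerivOp_apply_eq_fderiv, SchwartzMap.lineDerivOp_fourierInv_eq]
      have h2 : (2 * Real.pi * Complex.I) • SchwartzMap.smulLeftCLM ℂ (inner ℝ · v) u
          = ∑ i, (v i : ℂ) • ui i u := by
        ext x
        rw [app_sum]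
        change (2 * Real.pi * Complex.I) • (SchwartzMap.smulLeftCLM ℂ (inner ℝ · v) u) x = _
        rw [SchwartzMap.smulLeftCLM_apply_apply (by fun_prop), Complex.real_smul, smul_eq_mul,
          inner_eq_sum, Complex.ofReal_sum, Finset.sum_mul, Finset.mul_sum]
        refine Finset.sum_congr rfl fun i _ => ?_
        rw [ui_apply]
        push_cast
        ring
      rw [h2, FourierTransform.fourierInv_sum]
      simp only [FourierInvSMul.fourierInv_smul]
      rw [app_sum]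
    rw [h1, Finset.sum_smul]
    refine Finset.sum_congr rfl fun i _ => ?_
    rw [SchwartzMap.smulLeftCLM_apply_apply (SchwartzMap.hasTemperateGrowth _)]
    change _ = (𝓕⁻ (ui i u) : 𝓢(E n, ℂ)) ξ • (v i • b ξ)
    rw [rs, smul_smul, mul_comm]

/-- Polynomial growth. -/
def PG (g : E n → ℂ) : Prop := ∃ (C : ℝ) (N : ℕ), ∀ x, ‖g x‖ ≤ C * (1 + ‖x‖) ^ N

theorem PG.add {g h : E n → ℂ} (hg : PG g) (hh : PG h) : PG (fun x => g x + h x) := by
  obtain ⟨C, N, h1⟩ := hg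
  obtain ⟨D, M, h2⟩ := hh
  refine ⟨|C| + |D|, max N M, fun x => ?_⟩
  have hx : 1 ≤ 1 + ‖x‖ := by linarith [norm_nonneg x]
  calc ‖g x + h x‖ ≤ C * (1 + ‖x‖) ^ N + D * (1 + ‖x‖) ^ M :=
        (norm_add_le _ _).trans (add_le_add (h1 x) (h2 x))
    _ ≤ |C| * (1 + ‖x‖) ^ N + |D| * (1 + ‖x‖) ^ M := by
        gcongr <;> exact le_abs_self _
    _ ≤ |C| * (1 + ‖x‖) ^ (max N M) + |D| * (1 + ‖x‖) ^ (max N M) := by
        gcongr
        · exact le_max_left _ _
        · exact le_max_right _ _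
    _ = _ := by ring

theorem PG.mul {g h : E n → ℂ} (hg : PG g) (hh : PG h) : PG (fun x => g x * h x) := by
  obtain ⟨C, N, h1⟩ := hg
  obtain ⟨D, M, h2⟩ := hh
  refine ⟨|C| * |D|, N + M, fun x => ?_⟩
  rw [norm_mul]
  calc ‖g x‖ * ‖h x‖ ≤ (|C| * (1 + ‖x‖) ^ N) * (|D| * (1 + ‖x‖) ^ M) := by
        refine mul_le_mul ((h1 x).trans ?_) ((h2 x).trans ?_) (norm_nonneg _) (by positivity)
        · exact mul_le_mul_of_nonneg_right (le_abs_self _) (by positivity)
        · exact mul_le_mul_of_nonneg_right (le_abs_self _) (by positivity)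
    _ = _ := by ring

theorem PG.sum {ι : Type*} (s : Finset ι) {g : ι → E n → ℂ} (hg : ∀ i, PG (g i)) :
    PG (fun x => ∑ i ∈ s, g i x) := by
  classical
  induction s using Finset.induction_on with
  | empty => exact ⟨0, 0, fun x => by simp⟩
  | insert a s ha ih =>
    simp only [Finset.sum_insert ha]
    exact (hg a).add ih

theorem PG_coord (i : Fin n) : PG (fun x : E n => 2 * Real.pi * Complex.I * (x i : ℂ)) := by
  refine ⟨2 * Real.pi, 1, fun x => ?_⟩
  have h1 : |x i| ≤ ‖x‖ := by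
    have := PiLp.norm_apply_le x i
    rwa [Real.norm_eq_abs] at this
  simp only [norm_mul, Complex.norm_ofNat, Complex.norm_real, Complex.norm_I, Real.norm_eq_abs,
    abs_of_pos Real.pi_pos, pow_one, mul_one]
  have := Real.pi_pos
  nlinarith [norm_nonneg x]

theorem P_step (F G1 : 𝓢(E n, V) →ₗ[ℂ] ℂ) (G2 : 𝓢(E n, E n →L[ℝ] V) →ₗ[ℂ] ℂ)
    (h1 : P G1) (h2 : P G2)
    (hF : ∀ φ, F φ = G1 φ + G2 (SchwartzMap.fderivCLM ℂ (E n) V φ)) : P F := by
  intro b
  obtain ⟨c1, p1, i1⟩ := h1 b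
  obtain ⟨c2, p2, i2⟩ := h2 (SchwartzMap.fderivCLM ℂ (E n) V b)
  have h3 := fun i => h2 (bi i b)
  have key : ∀ x : E n, F (SchwartzMap.smulLeftCLM V (ch x) b)
      = G1 (SchwartzMap.smulLeftCLM V (ch x) b)
        + (G2 (SchwartzMap.smulLeftCLM (E n →L[ℝ] V) (ch x) (SchwartzMap.fderivCLM ℂ (E n) V b))
        + ∑ i, (2 * Real.pi * Complex.I * (x i : ℂ)) *
            G2 (SchwartzMap.smulLeftCLM (E n →L[ℝ] V) (ch x) (bi i b))) := by
    intro x
    rw [hF, D_ch, map_add, map_sum]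
    simp only [map_smul, smul_eq_mul]
  have hsum : ∀ i, PG (fun x : E n => (2 * Real.pi * Complex.I * (x i : ℂ)) *
            G2 (SchwartzMap.smulLeftCLM (E n →L[ℝ] V) (ch x) (bi i b))) :=
    fun i => (PG_coord i).mul (h3 i).2.1
  have hcs : ∀ i, Continuous (fun x : E n => (2 * Real.pi * Complex.I * (x i : ℂ)) *
            G2 (SchwartzMap.smulLeftCLM (E n →L[ℝ] V) (ch x) (bi i b))) := by
    intro i
    refine Continuous.mul (continuous_const.mul (Complex.continuous_ofReal.comp ?_)) (h3 i).1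
    exact (EuclideanSpace.proj i : E n →L[ℝ] ℝ).continuous
  refine ⟨?_, ?_, ?_⟩
  · simp only [key]
    exact c1.add (c2.add (continuous_finsetSum _ fun i _ => hcs i))
  · simp only [key]
    exact PG.add p1 (PG.add p2 (PG.sum _ hsum))
  · intro u
    have e1 : ∀ x : E n, F (SchwartzMap.smulLeftCLM V (ch x) b) * u x
      = G1 (SchwartzMap.smulLeftCLM V (ch x) b) * u x
        + (G2 (SchwartzMap.smulLeftCLM (E n →L[ℝ] V) (ch x)
            (SchwartzMap.fderivCLM ℂ (E n) V b)) * u x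
        + ∑ i, G2 (SchwartzMap.smulLeftCLM (E n →L[ℝ] V) (ch x) (bi i b)) * ui i u x) := by
      intro x
      rw [key, add_mul, add_mul, Finset.sum_mul]
      congr 2
      refine Finset.sum_congr rfl fun i _ => ?_
      rw [ui_apply]
      ring
    have j1 := integrable_mul c1 p1 u
    have j2 := integrable_mul c2 p2 u
    have j3 := fun i => integrable_mul (h3 i).1 (h3 i).2.1 (ui i u)
    have j4 : Integrable (fun x : E n =>
        ∑ i, G2 (SchwartzMap.smulLeftCLM (E n →L[ℝ] V) (ch x) (bi i b)) * ui i u x) :=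
      integrable_finsetSum _ fun i _ => j3 i
    have j5 : Integrable (fun x : E n => G2 (SchwartzMap.smulLeftCLM (E n →L[ℝ] V) (ch x)
            (SchwartzMap.fderivCLM ℂ (E n) V b)) * u x
        + ∑ i, G2 (SchwartzMap.smulLeftCLM (E n →L[ℝ] V) (ch x) (bi i b)) * ui i u x) :=
      j2.add j4
    simp only [e1]
    rw [integral_add j1 j5, integral_add j2 j4,
      integral_finsetSum _ fun i _ => j3 i, i1, i2, hF, D_u, map_add, map_sum]
    congr 2
    exact Finset.sum_congr rfl fun i _ => (h3 i).2.2 (ui i u)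

theorem seminorm_succ (k l : ℕ) (φ : 𝓢(E n, V)) :
    SchwartzMap.seminorm ℂ k (l + 1) φ
      ≤ SchwartzMap.seminorm ℂ k l (SchwartzMap.fderivCLM ℂ (E n) V φ) := by
  refine SchwartzMap.seminorm_le_bound ℂ k (l + 1) φ (apply_nonneg _ _) fun x => ?_
  have h := SchwartzMap.le_seminorm ℂ k l (SchwartzMap.fderivCLM ℂ (E n) V φ) x
  have h2 : ‖iteratedFDeriv ℝ (l + 1) φ x‖
      = ‖iteratedFDeriv ℝ l (SchwartzMap.fderivCLM ℂ (E n) V φ) x‖ := by
    rw [← norm_iteratedFDeriv_fderiv]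
    rfl
  rw [h2]
  exact h

end step

theorem all (K L : ℕ) : ∀ (V : Type) [NormedAddCommGroup V] [NormedSpace ℝ V] [NormedSpace ℂ V]
    [SMulCommClass ℝ ℂ V] [CompleteSpace V] (C : ℝ≥0) (F : 𝓢(E n, V) →ₗ[ℂ] ℂ),
    (∀ φ, ‖F φ‖ ≤ C * (Finset.Iic (K, L)).sup (schwartzSeminormFamily ℂ (E n) V) φ) → P F := by
  induction L with
  | zero =>
    intro V _ _ _ _ _ C F hF
    exact base K C F hF
  | succ L ih =>
    intro V _ _ _ _ _ C F hF
    let q1 : Seminorm ℂ 𝓢(E n, V) := (Finset.Iic (K, L)).sup (schwartzSeminormFamily ℂ (E n) V)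
    let q2 : Seminorm ℂ 𝓢(E n, E n →L[ℝ] V) :=
      (Finset.Iic (K, L)).sup (schwartzSeminormFamily ℂ (E n) (E n →L[ℝ] V))
    let D : 𝓢(E n, V) →ₗ[ℂ] 𝓢(E n, E n →L[ℝ] V) :=
      (SchwartzMap.fderivCLM ℂ (E n) V).toLinearMap
    obtain ⟨G, hG, hGb⟩ := factor (LinearMap.prod LinearMap.id D)
      (C • (q1.comp (LinearMap.fst ℂ _ _) + q2.comp (LinearMap.snd ℂ _ _))) F (by
        intro φ
        refine (hF φ).trans ?_
        change _ ≤ (C : ℝ) * (q1 φ + q2 (D φ))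
        refine mul_le_mul_of_nonneg_left ?_ C.2
        refine Seminorm.finset_sup_apply_le (add_nonneg (apply_nonneg _ _) (apply_nonneg _ _)) ?_
        rintro ⟨k, l⟩ hkl
        rw [Finset.mem_Iic, Prod.mk_le_mk] at hkl
        obtain ⟨hk, hl⟩ := hkl
        rcases l with _ | l
        · refine le_trans ?_ (le_add_of_nonneg_right (apply_nonneg _ _))
          exact Seminorm.le_def.1 (Finset.le_sup (f := schwartzSeminormFamily ℂ (E n) V)
            (b := (k, 0)) (Finset.mem_Iic.2 (Prod.mk_le_mk.2 ⟨hk, Nat.zero_le _⟩))) φ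
        · refine le_trans ?_ (le_add_of_nonneg_left (apply_nonneg _ _))
          refine (seminorm_succ k l φ).trans ?_
          exact Seminorm.le_def.1 (Finset.le_sup (f := schwartzSeminormFamily ℂ (E n) (E n →L[ℝ] V))
            (b := (k, l)) (Finset.mem_Iic.2 (Prod.mk_le_mk.2 ⟨hk, by omega⟩))) (D φ))
    refine P_step F (G.comp (LinearMap.inl ℂ _ _)) (G.comp (LinearMap.inr ℂ _ _))
      (ih V C _ fun φ => ?_) (ih (E n →L[ℝ] V) C _ fun φ => ?_) fun φ => ?_
    · refine (hGb _).trans (le_of_eq ?_)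
      change (C : ℝ) * (q1 φ + q2 0) = C * q1 φ
      rw [map_zero, add_zero]
    · refine (hGb _).trans (le_of_eq ?_)
      change (C : ℝ) * (q1 0 + q2 φ) = C * q2 φ
      rw [map_zero, zero_add]
    · rw [← hG φ]
      change G (φ, D φ) = G (φ, 0) + G (0, D φ)
      rw [← map_add]
      simp

theorem main : S_EXC := by
  intro n F b
  let F' : 𝓢(E n, ℂ) →ₗ[ℂ] ℂ :=
    { toFun := fun φ => F φ
      map_add' := fun a b => map_add F a b
      map_smul' := fun c a => map_smul F c a }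
  have hFc : Continuous (fun φ : 𝓢(E n, ℂ) => F φ) := F.cont
  obtain ⟨s, C, hC, h⟩ := Seminorm.bound_of_continuous
    (schwartz_withSeminorms ℂ (E n) ℂ) ((normSeminorm ℂ ℂ).comp F')
    (continuous_norm.comp hFc)
  obtain ⟨K, L, hKL⟩ : ∃ K L : ℕ, s ⊆ Finset.Iic (K, L) := by
    refine ⟨s.sup Prod.fst, s.sup Prod.snd, fun x hx => ?_⟩
    rw [Finset.mem_Iic]
    exact Prod.mk_le_mk.2 ⟨Finset.le_sup (f := Prod.fst) hx, Finset.le_sup (f := Prod.snd) hx⟩
  have hP : P F' := by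
    refine all K L ℂ C F' fun φ => ?_
    refine (h φ).trans ?_
    change (C : ℝ) * s.sup (schwartzSeminormFamily ℂ (E n) ℂ) φ ≤ _
    refine mul_le_mul_of_nonneg_left ?_ C.2
    exact Seminorm.le_def.1 (Finset.sup_mono hKL) φ
  exact hP b

end Pool.Agent.Helper76.VT.EXC
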