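import Pool.Agent.H25.VT.Spec

/-!
# Swarm VT, part HL: the Hardy-Littlewood maximal theorem
-/

set_option autoImplicit false
set_option linter.unusedSectionVars false

open MeasureTheory Set
open scoped ENNReal NNReal

namespace Pool.Agent.Helper76.VT.HL
open Pool.Agent.H25.VT

/-- Layer cake for a number. -/
theorem pt (p : ℝ) (hp : 0 < p) (g : ℝ≥0∞) :
    g ^ p = ∫⁻ t in Ioi (0 : ℝ), (if ENNReal.ofReal t < g then ENNReal.ofReal (p * t ^ (p - 1)) else 0) := by
  have hfin : ∀ c : ℝ≥0, (c : ℝ≥0∞) ^ p
      = ∫⁻ t in Ioi (0 : ℝ), (if ENNReal.ofReal t < c then ENNReal.ofReal (p * t ^ (p - 1)) else 0) := by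
    intro c
    have h := lintegral_rpow_eq_lintegral_meas_lt_mul (Measure.dirac ()) (f := fun _ : Unit => (c : ℝ))
      (Filter.Eventually.of_forall fun _ => c.2) measurable_const.aemeasurable hp
    rw [lintegral_dirac] at h
    replace h : ENNReal.ofReal ((c : ℝ) ^ p) = ENNReal.ofReal p * ∫⁻ t in Ioi (0 : ℝ),
      Measure.dirac () {a : Unit | t < (c : ℝ)} * ENNReal.ofReal (t ^ (p - 1)) := h
    have h0 : ENNReal.ofReal ((c : ℝ) ^ p) = (c : ℝ≥0∞) ^ p := by
      have := ENNReal.ofReal_rpow_of_nonneg (NNReal.coe_nonneg c) hp.le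
      rw [← this, ENNReal.ofReal_coe_nnreal]
    rw [← h0, h, ← lintegral_const_mul' _ _ ENNReal.ofReal_ne_top]
    refine setLIntegral_congr_fun measurableSet_Ioi fun t ht => ?_
    have ht0 : (0 : ℝ) ≤ t := le_of_lt ht
    by_cases htc : t < c
    · have h1 : {a : Unit | t < (c : ℝ)} = univ := by ext; simp [htc]
      have h2 : ENNReal.ofReal t < c := by
        rw [← ENNReal.ofReal_coe_nnreal]
        exact (ENNReal.ofReal_lt_ofReal_iff_of_nonneg ht0).2 htc
      rw [if_pos h2, h1, measure_univ, one_mul, ← ENNReal.ofReal_mul hp.le]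
    · have h1 : {a : Unit | t < (c : ℝ)} = ∅ := by ext; simp [htc]
      have h2 : ¬ ENNReal.ofReal t < c := by
        rw [← ENNReal.ofReal_coe_nnreal, ENNReal.ofReal_lt_ofReal_iff_of_nonneg ht0]
        exact htc
      rw [if_neg h2, h1, measure_empty, zero_mul, mul_zero]
  induction g with
  | coe c => exact hfin c
  | top =>
    rw [ENNReal.top_rpow_of_pos hp]
    symm
    rw [eq_top_iff]
    refine ENNReal.le_of_forall_nnreal_lt fun r hr => ?_
    -- r ≤ (r^(1/p))^p
    have h1 : (r : ℝ≥0∞) = ((r ^ (1 / p) : ℝ≥0) : ℝ≥0∞) ^ p := by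
      rw [← ENNReal.coe_rpow_of_nonneg _ hp.le, ← NNReal.rpow_mul, one_div,
        inv_mul_cancel₀ hp.ne', NNReal.rpow_one]
    rw [h1, hfin]
    refine lintegral_mono fun t => ?_
    simp only
    by_cases h2 : ENNReal.ofReal t < ((r ^ (1 / p) : ℝ≥0) : ℝ≥0∞)
    · rw [if_pos h2, if_pos ENNReal.ofReal_lt_top]
    · rw [if_neg h2]
      exact bot_le

theorem weak (n : ℕ) (hn : 1 ≤ n) (f : E n → ℝ≥0∞) (l : ℝ≥0∞) (hl0 : l ≠ 0) (hlt : l ≠ ∞) :
    volume {x | l < MM f x} ≤ ENNReal.ofReal (4 ^ n) * l⁻¹ * ∫⁻ x, f x := by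
  have h4 : ENNReal.ofReal (4 ^ n) ≠ 0 := by
    rw [Ne, ENNReal.ofReal_eq_zero, not_le]; positivity
  by_cases hI : ∫⁻ x, f x = ∞
  · rw [hI, ENNReal.mul_top]
    · exact le_top
    · exact mul_ne_zero h4 (ENNReal.inv_ne_zero.2 hlt)
  have hex : ∀ x : E n, l < MM f x → ∃ t : ℝ, 0 < t ∧
      volume (Metric.ball x t) * l ≤ ∫⁻ y in Metric.ball x t, f y := by
    intro x hx
    obtain ⟨t, ht⟩ := lt_iSup_iff.1 hx
    obtain ⟨ht0, h⟩ := lt_iSup_iff.1 ht
    refine ⟨t, ht0, ?_⟩
    have hv0 : volume (Metric.ball x t) ≠ 0 := (Metric.measure_ball_pos volume x ht0).ne'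
    have hvt : volume (Metric.ball x t) ≠ ∞ := measure_ball_lt_top.ne
    calc volume (Metric.ball x t) * l
        ≤ volume (Metric.ball x t) * ((volume (Metric.ball x t))⁻¹ * ∫⁻ y in Metric.ball x t, f y) :=
          mul_le_mul_right h.le _
      _ = ∫⁻ y in Metric.ball x t, f y := by
          rw [← mul_assoc, ENNReal.mul_inv_cancel hv0 hvt, one_mul]
  choose! r hr0 hr using hex
  set v1 : ℝ≥0∞ := volume (Metric.ball (0 : E n) 1) with hv1
  have hv10 : v1 ≠ 0 := (Metric.measure_ball_pos volume _ one_pos).ne'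
  have hv1t : v1 ≠ ∞ := measure_ball_lt_top.ne
  have hvol : ∀ (x : E n) (t : ℝ), 0 < t →
      volume (Metric.ball x t) = ENNReal.ofReal (t ^ n) * v1 := by
    intro x t ht
    rw [Measure.addHaar_ball_of_pos volume x ht, finrank_euclideanSpace_fin]
  set I := ∫⁻ x, f x with hIdef
  have hbd : ∀ x ∈ {x | l < MM f x}, r x ≤ max 1 (I / (v1 * l)).toReal := by
    intro x hx
    by_cases h1 : r x ≤ 1
    · exact le_max_of_le_left h1
    · push Not at h1
      refine le_max_of_le_right ?_
      have h2 : ENNReal.ofReal (r x) * (v1 * l) ≤ I := by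
        calc ENNReal.ofReal (r x) * (v1 * l) ≤ ENNReal.ofReal (r x ^ n) * (v1 * l) := by
              refine mul_le_mul_left (ENNReal.ofReal_le_ofReal ?_) _
              exact le_self_pow₀ h1.le (by omega)
          _ = volume (Metric.ball x (r x)) * l := by rw [hvol x _ (hr0 x hx), mul_assoc]
          _ ≤ ∫⁻ y in Metric.ball x (r x), f y := hr x hx
          _ ≤ I := setLIntegral_le_lintegral _ _
      have h3 : ENNReal.ofReal (r x) ≤ I / (v1 * l) := by
        rw [ENNReal.le_div_iff_mul_le (Or.inl (mul_ne_zero hv10 hl0))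
          (Or.inl (ENNReal.mul_ne_top hv1t hlt))]
        exact h2
      exact (ENNReal.ofReal_le_iff_le_toReal
        (ENNReal.div_ne_top hI (mul_ne_zero hv10 hl0))).1 h3
  obtain ⟨u, hut, hdisj, hcov⟩ := Vitali.exists_disjoint_subfamily_covering_enlargement_closedBall
    {x | l < MM f x} (fun x : E n => x) r _ hbd 4 (by norm_num)
  have hucount : u.Countable := by
    refine hdisj.countable_of_nonempty_interior fun x hx => ?_
    refine ⟨x, ?_⟩
    exact interior_mono Metric.ball_subset_closedBall
      (by rw [Metric.isOpen_ball.interior_eq]; exact Metric.mem_ball_self (hr0 x (hut hx)))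
  have hsub : {x | l < MM f x} ⊆ ⋃ b ∈ u, Metric.closedBall b (4 * r b) := by
    intro x hx
    obtain ⟨b, hb, hbb⟩ := hcov x hx
    exact mem_biUnion hb (hbb (Metric.mem_closedBall_self (hr0 x hx).le))
  have hdisj' : u.PairwiseDisjoint fun a => Metric.ball a (r a) :=
    hdisj.mono fun _ => Metric.ball_subset_closedBall
  calc volume {x | l < MM f x} ≤ volume (⋃ b ∈ u, Metric.closedBall b (4 * r b)) :=
        measure_mono hsub
    _ ≤ ∑' b : u, volume (Metric.closedBall (b : E n) (4 * r b)) := measure_biUnion_le _ hucount _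
    _ ≤ ∑' b : u, ENNReal.ofReal (4 ^ n) * l⁻¹ * ∫⁻ y in Metric.ball (b : E n) (r b), f y := by
        refine ENNReal.tsum_le_tsum fun b => ?_
        have hb := hut b.2
        have hb0 := hr0 b hb
        rw [Measure.addHaar_closedBall volume _ (by positivity), finrank_euclideanSpace_fin,
          mul_pow, ENNReal.ofReal_mul (by positivity), mul_assoc, mul_assoc, ← hvol b _ hb0]
        refine mul_le_mul_right ?_ _
        calc volume (Metric.ball (b : E n) (r b))
            = l⁻¹ * (volume (Metric.ball (b : E n) (r b)) * l) := by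
              rw [mul_comm _ l, ← mul_assoc, ENNReal.inv_mul_cancel hl0 hlt, one_mul]
          _ ≤ l⁻¹ * ∫⁻ y in Metric.ball (b : E n) (r b), f y := mul_le_mul_right (hr b hb) _
    _ = ENNReal.ofReal (4 ^ n) * l⁻¹ * ∫⁻ y in ⋃ b ∈ u, Metric.ball b (r b), f y := by
        rw [ENNReal.tsum_mul_left,
          lintegral_biUnion hucount (fun _ _ => measurableSet_ball) hdisj']
    _ ≤ ENNReal.ofReal (4 ^ n) * l⁻¹ * I :=
        mul_le_mul_right (setLIntegral_le_lintegral _ _) _

theorem trunc (n : ℕ) (f : E n → ℝ≥0∞) (t : ℝ≥0∞) (x : E n) (hx : t < MM f x) :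
    t / 2 < MM (fun y => if t / 2 < f y then f y else 0) x := by
  obtain ⟨r, hr⟩ := lt_iSup_iff.1 hx
  obtain ⟨hr0, h⟩ := lt_iSup_iff.1 hr
  set g : E n → ℝ≥0∞ := fun y => if t / 2 < f y then f y else 0 with hg
  have hv0 : volume (Metric.ball x r) ≠ 0 := (Metric.measure_ball_pos volume x hr0).ne'
  have hvt : volume (Metric.ball x r) ≠ ∞ := measure_ball_lt_top.ne
  have h1 : (volume (Metric.ball x r))⁻¹ * ∫⁻ y in Metric.ball x r, f y
      ≤ (volume (Metric.ball x r))⁻¹ * (∫⁻ y in Metric.ball x r, g y) + t / 2 := by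
    calc (volume (Metric.ball x r))⁻¹ * ∫⁻ y in Metric.ball x r, f y
        ≤ (volume (Metric.ball x r))⁻¹ * ∫⁻ y in Metric.ball x r, (g y + t / 2) := by
          refine mul_le_mul_right (lintegral_mono fun y => ?_) _
          by_cases h2 : t / 2 < f y
          · simp only [hg, if_pos h2]
            exact le_self_add
          · simp only [hg, if_neg h2, zero_add]
            exact not_lt.1 h2
      _ = (volume (Metric.ball x r))⁻¹ * (∫⁻ y in Metric.ball x r, g y) + t / 2 := by
          rw [lintegral_add_right _ measurable_const, mul_add, setLIntegral_const,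
            mul_comm (t / 2), ← mul_assoc, ENNReal.inv_mul_cancel hv0 hvt, one_mul]
  have h3 : t < (volume (Metric.ball x r))⁻¹ * (∫⁻ y in Metric.ball x r, g y) + t / 2 :=
    h.trans_le h1
  have h4 : t / 2 < (volume (Metric.ball x r))⁻¹ * (∫⁻ y in Metric.ball x r, g y) := by
    by_contra hcon
    push Not at hcon
    have h5 := add_le_add_left hcon (t / 2)
    rw [ENNReal.add_halves] at h5
    exact absurd h3 (not_lt.2 h5)
  refine h4.trans_le ?_
  exact le_iSup₂ (f := fun (t : ℝ) (_ : 0 < t) =>
    (volume (Metric.ball x t))⁻¹ * ∫⁻ y in Metric.ball x t, g y) r hr0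

theorem main (hM : S_MEAS) : S_HL := by
  intro n s hn hs
  refine ⟨ENNReal.ofReal (4 ^ n) * ENNReal.ofReal (2 * s / (s - 1)) * 2 ^ (s - 1), ?_, ?_⟩
  · exact ENNReal.mul_ne_top (ENNReal.mul_ne_top ENNReal.ofReal_ne_top ENNReal.ofReal_ne_top)
      (ENNReal.rpow_ne_top_of_nonneg (by linarith) (by norm_num))
  intro f hf
  have hs1 : 0 < s - 1 := by linarith
  have hs0 : 0 < s := by linarith
  have hMf := hM n f hf
  have m1 : Measurable fun z : E n × ℝ =>
      (if ENNReal.ofReal z.2 < MM f z.1 then ENNReal.ofReal (s * z.2 ^ (s - 1)) else 0) := by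
    refine Measurable.ite (measurableSet_lt (by fun_prop) (hMf.comp measurable_fst)) (by fun_prop)
      measurable_const
  have m2 : Measurable fun z : E n × ℝ =>
      (if ENNReal.ofReal z.2 < 2 * f z.1 then
        ENNReal.ofReal ((s - 1) * z.2 ^ (s - 1 - 1)) else 0) := by
    refine Measurable.ite (measurableSet_lt (by fun_prop) (by fun_prop)) (by fun_prop)
      measurable_const
  calc ∫⁻ x, MM f x ^ s
      = ∫⁻ x, ∫⁻ t in Ioi (0 : ℝ), (if ENNReal.ofReal t < MM f x then
          ENNReal.ofReal (s * t ^ (s - 1)) else 0) := lintegral_congr fun x => pt s hs0 _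
    _ = ∫⁻ t in Ioi (0 : ℝ), ∫⁻ x, (if ENNReal.ofReal t < MM f x then
          ENNReal.ofReal (s * t ^ (s - 1)) else 0) :=
        lintegral_lintegral_swap m1.aemeasurable
    _ ≤ ∫⁻ t in Ioi (0 : ℝ), ∫⁻ x, ENNReal.ofReal (4 ^ n) * ENNReal.ofReal (2 * s / (s - 1)) *
          (f x * (if ENNReal.ofReal t < 2 * f x then
            ENNReal.ofReal ((s - 1) * t ^ (s - 1 - 1)) else 0)) := by
        refine setLIntegral_mono' measurableSet_Ioi fun t ht => ?_
        have ht0 : (0 : ℝ) < t := ht
        set T := ENNReal.ofReal t with hT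
        have hT0 : T ≠ 0 := by rw [hT, Ne, ENNReal.ofReal_eq_zero, not_le]; exact ht0
        have hTt : T ≠ ∞ := ENNReal.ofReal_ne_top
        have hS : MeasurableSet {x | T < MM f x} := measurableSet_lt measurable_const hMf
        set g : E n → ℝ≥0∞ := fun y => if T / 2 < f y then f y else 0 with hg
        have e1 : ∫⁻ x, (if T < MM f x then ENNReal.ofReal (s * t ^ (s - 1)) else 0)
            = ENNReal.ofReal (s * t ^ (s - 1)) * volume {x | T < MM f x} := by
          rw [← lintegral_indicator_const hS]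
          refine lintegral_congr fun x => ?_
          by_cases h6 : T < MM f x
          · rw [if_pos h6, indicator_of_mem (by exact h6)]
          · rw [if_neg h6, indicator_of_notMem (by exact h6)]
        have e2 : volume {x | T < MM f x} ≤ ENNReal.ofReal (4 ^ n) * (T / 2)⁻¹ * ∫⁻ x, g x := by
          refine (measure_mono fun x hx => ?_).trans (weak n hn g (T / 2) ?_ ?_)
          · exact trunc n f T x hx
          · exact (ENNReal.div_pos hT0 (by norm_num)).ne'
          · exact ENNReal.div_ne_top hTt (by norm_num)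
        have e3 : ENNReal.ofReal (s * t ^ (s - 1)) * (T / 2)⁻¹
            = ENNReal.ofReal (2 * s / (s - 1)) * ENNReal.ofReal ((s - 1) * t ^ (s - 1 - 1)) := by
          have h2 : T / 2 = ENNReal.ofReal (t / 2) := by
            rw [ENNReal.ofReal_div_of_pos (by norm_num), ENNReal.ofReal_ofNat]
          rw [h2, ← ENNReal.ofReal_inv_of_pos (by positivity), ← ENNReal.ofReal_mul (by positivity),
            ← ENNReal.ofReal_mul (by positivity)]
          congr 1
          rw [Real.rpow_sub_one ht0.ne' (s - 1)]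
          field_simp
        rw [e1]
        calc ENNReal.ofReal (s * t ^ (s - 1)) * volume {x | T < MM f x}
            ≤ ENNReal.ofReal (s * t ^ (s - 1)) *
                (ENNReal.ofReal (4 ^ n) * (T / 2)⁻¹ * ∫⁻ x, g x) := mul_le_mul_right e2 _
          _ = ENNReal.ofReal (4 ^ n) * (ENNReal.ofReal (s * t ^ (s - 1)) * (T / 2)⁻¹)
                * ∫⁻ x, g x := by ring
          _ = ∫⁻ x, ENNReal.ofReal (4 ^ n) * (ENNReal.ofReal (s * t ^ (s - 1)) * (T / 2)⁻¹)
                * g x := by
              rw [lintegral_const_mul]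
              exact Measurable.ite (measurableSet_lt measurable_const hf) hf measurable_const
          _ ≤ _ := by
              refine lintegral_mono fun x => ?_
              simp only
              rw [e3]
              have e4 : T / 2 < f x ↔ T < 2 * f x := by
                rw [ENNReal.div_lt_iff (Or.inl (by norm_num)) (Or.inl (by norm_num)), mul_comm]
              by_cases h5 : T < 2 * f x
              · rw [if_pos h5]
                simp only [hg, if_pos (e4.2 h5)]
                exact le_of_eq (by ring)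
              · simp only [hg, if_neg (fun h => h5 (e4.1 h)), mul_zero]
                exact bot_le
    _ = ∫⁻ x, ∫⁻ t in Ioi (0 : ℝ), ENNReal.ofReal (4 ^ n) * ENNReal.ofReal (2 * s / (s - 1)) *
          (f x * (if ENNReal.ofReal t < 2 * f x then
            ENNReal.ofReal ((s - 1) * t ^ (s - 1 - 1)) else 0)) := by
        symm
        refine lintegral_lintegral_swap ?_
        exact (((hf.comp measurable_fst).mul m2).const_mul _).aemeasurable
    _ = ∫⁻ x, ENNReal.ofReal (4 ^ n) * ENNReal.ofReal (2 * s / (s - 1)) *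
          (f x * (2 * f x) ^ (s - 1)) := by
        refine lintegral_congr fun x => ?_
        have m3 : Measurable fun t : ℝ => (if ENNReal.ofReal t < 2 * f x then
            ENNReal.ofReal ((s - 1) * t ^ (s - 1 - 1)) else 0) :=
          Measurable.ite (measurableSet_lt (by fun_prop) measurable_const) (by fun_prop)
            measurable_const
        rw [pt (s - 1) hs1 (2 * f x), lintegral_const_mul _ (m3.const_mul _),
          lintegral_const_mul _ m3]
    _ = _ := by
        rw [← lintegral_const_mul _ (hf.pow_const s)]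
        refine lintegral_congr fun x => ?_
        have h1 : f x ^ s = f x * f x ^ (s - 1) := by
          conv_lhs => rw [show s = 1 + (s - 1) by ring]
          rw [ENNReal.rpow_add_of_nonneg _ _ zero_le_one hs1.le, ENNReal.rpow_one]
        rw [h1, ENNReal.mul_rpow_of_nonneg _ _ hs1.le]
        ring

end Pool.Agent.Helper76.VT.HL
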